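import Pool.Agent.PVD.StmtsM1

/-! Squad PVD, block M1, row BLF: elementary facts on `bl`, `fm`, `cl`. -/

set_option autoImplicit false
open MeasureTheory Filter Topology

namespace Pool.Agent.PVD.M.H90

open Pool.Agent.PVD.L

theorem bl_zero (e t : ℝ) : bl e 0 t = 0 := rfl
theorem bl_one (e t : ℝ) : bl e 1 t = 1 := rfl
theorem bl_two (e t : ℝ) : bl e 2 t = e / max t e - e := rfl
theorem bl_three (e t : ℝ) : bl e 3 t = (1 - e) / max t (1 - e) - (1 - e) := rfl

theorem q_cont {a : ℝ} (ha : 0 < a) : Continuous (fun t : ℝ => a / max t a - a) := by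
  refine (continuous_const.div (continuous_id.max continuous_const) ?_).sub continuous_const
  intro t
  exact (lt_of_lt_of_le ha (le_max_right t a)).ne'

theorem q_eq {a t : ℝ} (ha : 0 < a) : min t a - a * t = t * (a / max t a - a) := by
  have hm : 0 < max t a := lt_of_lt_of_le ha (le_max_right t a)
  have h1 : min t a = t * a / max t a := by
    rw [eq_div_iff hm.ne']
    exact min_mul_max t a
  rw [h1]
  ring

theorem q_nonneg {a t : ℝ} (ha : 0 < a) (ha1 : a ≤ 1) (ht : t ≤ 1) :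
    0 ≤ a / max t a - a := by
  have hm : 0 < max t a := lt_of_lt_of_le ha (le_max_right t a)
  have hm1 : max t a ≤ 1 := max_le ht ha1
  have h2 : a ≤ a / max t a := by
    rw [le_div_iff₀ hm]
    nlinarith
  linarith

theorem bl_cont {e : ℝ} (h0 : 0 < e) (h1 : e < 1 / 2) (i : Fin 4) : Continuous (bl e i) := by
  fin_cases i
  · exact (continuous_const : Continuous (fun _ : ℝ => (0 : ℝ)))
  · exact (continuous_const : Continuous (fun _ : ℝ => (1 : ℝ)))
  · exact q_cont h0
  · exact q_cont (by linarith : (0 : ℝ) < 1 - e)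

theorem cl_eq_bl {e : ℝ} (h0 : 0 < e) (h1 : e < 1 / 2) (i : Fin 4) (hi : i ≠ 0) (t : ℝ) :
    cl e i t = t * bl e i t := by
  fin_cases i
  · exact absurd rfl hi
  · show t = t * 1
    ring
  · exact q_eq h0
  · exact q_eq (by linarith : (0 : ℝ) < 1 - e)

theorem bl_nonneg {e : ℝ} (h0 : 0 < e) (h1 : e < 1 / 2) (i : Fin 4) {t : ℝ} (ht : t ≤ 1) :
    0 ≤ bl e i t := by
  fin_cases i
  · exact le_refl (0 : ℝ)
  · exact zero_le_one
  · exact q_nonneg h0 (by linarith) ht
  · exact q_nonneg (by linarith : (0 : ℝ) < 1 - e) (by linarith) ht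

theorem pa_nonneg {A : Finset (Fin 4)} {m : Fin 4 → ℝ} (h : PA A m) (i : Fin 4) : 0 ≤ m i := by
  by_cases hi : i ∈ A
  · exact (h.1 i hi).le
  · rw [h.2 i hi]

/-- BLF -/
theorem blf : BlfStmt := by
  intro e h0 h1 m
  have hsum : PA AL m → ∀ t : ℝ, 0 ≤ t → t ≤ 1 → 0 < ∑ i, m i * bl e i t := by
    intro hm t _ ht1
    have h11 : 0 < m 1 * bl e 1 t := by
      rw [bl_one, mul_one]
      exact hm.1 1 (by simp [AL])
    refine lt_of_lt_of_le h11 ?_
    exact Finset.single_le_sum (f := fun i => m i * bl e i t)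
      (fun i _ => mul_nonneg (pa_nonneg hm i) (bl_nonneg h0 h1 i ht1)) (Finset.mem_univ 1)
  have hfm : PA AL m → ∀ t : ℝ, 0 < t → fm e m t = t * ∑ i, m i * bl e i t := by
    intro hm t _
    unfold fm
    rw [Finset.mul_sum]
    refine Finset.sum_congr rfl fun i _ => ?_
    by_cases hi : i = 0
    · have hm0 : m i = 0 := hm.2 i (by rw [hi]; simp [AL])
      rw [hm0]
      ring
    · rw [cl_eq_bl h0 h1 i hi t]
      ring
  refine ⟨bl_cont h0 h1, fun i hi t _ => cl_eq_bl h0 h1 i hi t, hsum, hfm, ?_, ?_, ?_, ?_⟩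
  · intro hm t ht0 ht1
    have hm0 : 0 < m 0 := hm.1 0 (by simp [AK])
    have hm1 : 0 < m 1 := hm.1 1 (by simp [AK])
    have h2 : 0 ≤ m 2 * cl e 2 t :=
      mul_nonneg (pa_nonneg hm 2) (cl_nonneg h0 (by linarith) ht0 ht1 2)
    have h3 : 0 ≤ m 3 * cl e 3 t :=
      mul_nonneg (pa_nonneg hm 3) (cl_nonneg h0 (by linarith) ht0 ht1 3)
    have hf : fm e m t = m 0 * cl e 0 t + m 1 * cl e 1 t + m 2 * cl e 2 t + m 3 * cl e 3 t := by
      unfold fm
      rw [Fin.sum_univ_four]
    rw [hf, cl_zero, cl_one]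
    have h01 : 0 < m 0 * (1 - t) + m 1 * t := by
      rcases ht0.eq_or_lt with h | h
      · rw [← h]
        linarith
      · have := mul_pos hm1 h
        have := mul_nonneg hm0.le (by linarith : 0 ≤ 1 - t)
        linarith
    linarith
  · intro hm t ht0 ht1
    rw [hfm hm t ht0]
    exact mul_pos ht0 (hsum hm t ht0.le ht1)
  · intro A hA t
    unfold fm
    refine Finset.sum_subset (Finset.subset_univ A) fun i _ hi => ?_
    rw [hA.2 i hi, zero_mul]
  · intro A hA i hi t ht0 ht1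
    have hmi : 0 < m i := hA.1 i hi
    rw [le_inv_mul_iff₀ hmi]
    unfold fm
    exact Finset.single_le_sum (f := fun j => m j * cl e j t)
      (fun j _ => mul_nonneg (pa_nonneg hA j) (cl_nonneg h0 (by linarith) ht0 ht1 j))
      (Finset.mem_univ i)

end Pool.Agent.PVD.M.H90
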