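import Pool.Agent.PVD.StmtsM2

/-! Squad PVD, block M2, row MCT: continuity of the five functions for fixed `m`. -/

set_option autoImplicit false
open MeasureTheory Filter Topology Set

namespace Pool.Agent.PVD.M.H90

open Pool.Agent.PVD.L

/-- continuity of the normalised volume and of its derivatives -/
theorem contA (hMB1 : Mb1Stmt) (hMB3 : Mb3Stmt) (hWCO : _root_.PVD.WCOStmt)
    (hWCD : _root_.PVD.WCDStmt) (k m : ℕ) (hk : 128 < k) (hm : 2 ≤ m) (A : Finset (Fin 4))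
    (hA : A.Nonempty) (h : (Fin 5 → ℝ) → Fin 4 → ℝ)
    (hc : ∀ i ∈ A, ContinuousOn (fun x => h x i) (Icc 0 1))
    (hp : ∀ x ∈ Icc (0 : Fin 5 → ℝ) 1, ∀ i ∈ A, 0 < h x i) :
    ContinuousOn (fun x => SS k m A (h x)) (Icc 0 1) ∧
      ∀ i ∈ A, ContinuousOn (fun x => al k m A (h x) i) (Icc 0 1) := by
  obtain ⟨-, hnn, h2n, -, hRO, hHn, hsc, -, -, -, -⟩ := hMB1 k m hk hm
  have hn2 : 2 ≤ nn k m := by omega
  have hnpos : (0 : ℝ) < (nn k m : ℝ) := by exact_mod_cast (by omega : 0 < nn k m)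
  -- the support numbers
  have hpos : ∀ x ∈ Icc (0 : Fin 5 → ℝ) 1, ∀ r ∈ CR k m A, 0 < Hn k m (h x) r := by
    intro x hx r hr
    obtain ⟨i, hi, rfl⟩ := Finset.mem_image.mp hr
    rw [hHn]
    exact mul_pos (hsc i) (hp x hx i hi)
  have htend : ∀ x ∈ Icc (0 : Fin 5 → ℝ) 1, ∀ r ∈ CR k m A,
      Tendsto (fun y => Hn k m (h y) r) (𝓝[Icc 0 1] x) (𝓝 (Hn k m (h x) r)) := by
    intro x hx r hr
    obtain ⟨i, hi, rfl⟩ := Finset.mem_image.mp hr
    simp only [hHn]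
    exact (hc i hi x hx).const_mul _
  have hW : ContinuousOn (fun x => WW k m A (h x)) (Icc 0 1) := by
    intro x hx
    exact hWCO (nn k m) (CR k m A) (Hn k m (h x)) (hRO A hA) (hpos x hx) (Fin 5 → ℝ)
      (𝓝[Icc 0 1] x) (fun y => Hn k m (h y)) (htend x hx)
  have hWpos : ∀ x ∈ Icc (0 : Fin 5 → ℝ) 1, 0 < WW k m A (h x) := fun x hx =>
    (hMB3 k m hk hm A (h x) hA (hp x hx)).1
  have hdW : ∀ i ∈ A, ContinuousOn
      (fun x => _root_.PVD.dW (nn k m) (CR k m A) (Hn k m (h x)) (cm k m i)) (Icc 0 1) := by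
    intro i hi x hx
    exact hWCD (nn k m) (CR k m A) (Hn k m (h x)) hn2 (hRO A hA) (hpos x hx) (Fin 5 → ℝ)
      (𝓝[Icc 0 1] x) (fun y => Hn k m (h y)) (htend x hx) (cm k m i)
      (Finset.mem_image_of_mem _ hi)
  refine ⟨?_, ?_⟩
  · unfold SS
    refine ContinuousOn.mul continuousOn_const (ContinuousOn.log ?_ ?_)
    · exact ContinuousOn.mul continuousOn_const hW
    · intro x hx
      exact (mul_pos (pow_pos hnpos _) (hWpos x hx)).ne'
  · intro i hi
    unfold al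
    refine ContinuousOn.div ?_ ?_ ?_
    · exact ContinuousOn.mul continuousOn_const (hdW i hi)
    · exact ContinuousOn.mul continuousOn_const hW
    · intro x hx
      exact (mul_pos hnpos (hWpos x hx)).ne'

/-- MCT -/
theorem mct (hMB1 : Mb1Stmt) (hMB3 : Mb3Stmt) (hPMC : PmcStmt) (hWCO : _root_.PVD.WCOStmt)
    (hWCD : _root_.PVD.WCDStmt) : MctStmt := by
  intro k q d kap hok m hm i
  have hk : 128 < k := hok.1
  obtain ⟨hbox, -, -, hlm, hcK, hcL⟩ := hPMC k q d kap hok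
  have hAK : AK.Nonempty := ⟨0, by simp [AK]⟩
  have hAL : AL.Nonempty := ⟨1, by simp [AL]⟩
  obtain ⟨hSK, haK⟩ := contA hMB1 hMB3 hWCO hWCD k m hk hm AK hAK (fun x => hK k q x) hcK
    (fun x hx => (hbox x hx).2.2.2.1)
  obtain ⟨hSL, haL⟩ := contA hMB1 hMB3 hWCO hWCD k m hk hm AL hAL (fun x => hL k q d x) hcL
    (fun x hx => (hbox x hx).2.2.2.2)
  have hlpos : ∀ x ∈ Icc (0 : Fin 5 → ℝ) 1, 0 < lm k q d x := fun x hx => (hbox x hx).2.2.1
  have k0 : (0 : Fin 4) ∈ AK := by simp [AK]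
  have k1 : (1 : Fin 4) ∈ AK := by simp [AK]
  have k2 : (2 : Fin 4) ∈ AK := by simp [AK]
  have l1 : (1 : Fin 4) ∈ AL := by simp [AL]
  have l2 : (2 : Fin 4) ∈ AL := by simp [AL]
  have l3 : (3 : Fin 4) ∈ AL := by simp [AL]
  have hloglm : ContinuousOn (fun x => Real.log (lm k q d x)) (Icc (0 : Fin 5 → ℝ) 1) :=
    hlm.log (fun x hx => (hlpos x hx).ne')
  fin_cases i
  · show ContinuousOn (fun x => lm k q d x * al k m AL (hL k q d x) 1 -
      (al k m AK (hK k q x) 0 + al k m AK (hK k q x) 1)) (Icc 0 1)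
    exact (hlm.mul (haL 1 l1)).sub ((haK 0 k0).add (haK 1 k1))
  · show ContinuousOn (fun x => lm k q d x * (al k m AL (hL k q d x) 2 +
      al k m AL (hL k q d x) 3) - al k m AK (hK k q x) 2) (Icc 0 1)
    exact (hlm.mul ((haL 2 l2).add (haL 3 l3))).sub (haK 2 k2)
  · show ContinuousOn (fun x => SS k m AL (hL k q d x) - SS k m AK (hK k q x) -
      (1 / (nn k m : ℝ)) * Real.log (lm k q d x)) (Icc 0 1)
    exact (hSL.sub hSK).sub (continuousOn_const.mul hloglm)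
  · show ContinuousOn (fun x => (1 - 2 * al k m AK (hK k q x) 0 * hK k q x 0)
      - lm k q d x * (1 - 2 * al k m AL (hL k q d x) 3 * hL k q d x 3)) (Icc 0 1)
    exact (continuousOn_const.sub ((continuousOn_const.mul (haK 0 k0)).mul (hcK 0 k0))).sub
      (hlm.mul (continuousOn_const.sub ((continuousOn_const.mul (haL 3 l3)).mul (hcL 3 l3))))
  · show ContinuousOn (fun x => -((al k m AK (hK k q x) 1 * hK k q x 1 -
      al k m AK (hK k q x) 0 * hK k q x 0)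
      - lm k q d x * (al k m AL (hL k q d x) 1 * hL k q d x 1))) (Icc 0 1)
    exact ((((haK 1 k1).mul (hcK 1 k1)).sub ((haK 0 k0).mul (hcK 0 k0))).sub
      (hlm.mul ((haL 1 l1).mul (hcL 1 l1)))).neg

end Pool.Agent.PVD.M.H90
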